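import Mathlib

/-!
# The words `T_r = σ_1 ... σ_{r-1}` in the coordinates `Λ`: the case of small `|t|`

`T_r` replaces `Λ_j` by `Λ_{j+1} - t ^ j Λ_1` for `j < r` and leaves the other coordinates. In the
coordinates `g_j = Λ_{j+1} - t Λ_j` it removes the first entry and inserts
`t ^ r g_0 + (1 - t) Λ_r` at the place `r`.
-/

set_option autoImplicit false

namespace Pool.Agent.Helper87.LZ

/-- the action of `T_r` -/
def T (t : ℂ) (r : ℕ) (L : ℕ → ℂ) : ℕ → ℂ := fun j =>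
  if j < r then L (j + 1) - t ^ j * L 1 else L j

/-- the action of a list of numbers `r`, the first one acts first -/
def act (t : ℂ) (l : List ℕ) (L : ℕ → ℂ) : ℕ → ℂ := l.foldl (fun M r => T t r M) L

/-- the difference coordinates -/
def g (t : ℂ) (L : ℕ → ℂ) : ℕ → ℂ := fun j => L (j + 1) - t * L j

variable {t : ℂ} {n : ℕ}

@[simp] theorem act_nil (L : ℕ → ℂ) : act t [] L = L := rfl

@[simp] theorem act_cons (r : ℕ) (l : List ℕ) (L : ℕ → ℂ) :
    act t (r :: l) L = act t l (T t r L) := rfl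

@[simp] theorem act_append (l l' : List ℕ) (L : ℕ → ℂ) :
    act t (l ++ l') L = act t l' (act t l L) := by
  unfold act
  rw [List.foldl_append]

theorem T_zero {L : ℕ → ℂ} (h0 : L 0 = 0) (r : ℕ) : T t r L 0 = 0 := by
  unfold T
  split_ifs
  · simp
  · exact h0

theorem T_of_le {L : ℕ → ℂ} {r j : ℕ} (h : r ≤ j) : T t r L j = L j := by
  unfold T
  rw [if_neg (by omega)]

theorem g_T {L : ℕ → ℂ} (r j : ℕ) : g t (T t r L) j =
    if j + 1 < r then g t L (j + 1) else if j + 1 = r then t ^ r * L 1 + (1 - t) * L r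
      else g t L j := by
  unfold g T
  by_cases h1 : j + 1 < r
  · rw [if_pos h1, if_pos h1, if_pos (by omega)]
    ring
  · rw [if_neg h1, if_neg h1]
    by_cases h2 : j + 1 = r
    · rw [if_pos (by omega), if_pos h2, ← h2]
      ring
    · rw [if_neg (by omega), if_neg h2]

theorem norm_le {L : ℕ → ℂ} (h0 : L 0 = 0) (N : ℝ) (ht : ‖t‖ < 1)
    (hg : ∀ j < n, ‖g t L j‖ ≤ N) : ∀ r ≤ n, (1 - ‖t‖) * ‖L r‖ ≤ N * (1 - ‖t‖ ^ r) := by
  intro r
  induction r with
  | zero => intro _; rw [h0]; simp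
  | succ r ih =>
    intro hr
    have h1 := ih (by omega)
    have h2 := hg r (by omega)
    have e : L (r + 1) = g t L r + t * L r := by unfold g; ring
    have h3 : ‖L (r + 1)‖ ≤ N + ‖t‖ * ‖L r‖ := by
      rw [e]
      refine (norm_add_le _ _).trans ?_
      rw [norm_mul]
      linarith
    have h4 : (1 - ‖t‖) * ‖L (r + 1)‖ ≤ (1 - ‖t‖) * N + ‖t‖ * ((1 - ‖t‖) * ‖L r‖) := by
      have := mul_le_mul_of_nonneg_left h3 (by linarith : 0 ≤ 1 - ‖t‖)
      linarith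
    have h5 := mul_le_mul_of_nonneg_left h1 (norm_nonneg t)
    rw [pow_succ]
    nlinarith

/-- the invariant of a nondecreasing run -/
structure Inv (t : ℂ) (n : ℕ) (K : ℝ) (L M : ℕ → ℂ) (b : ℕ) : Prop where
  zero : M 0 = 0
  tail : ∀ j, b ≤ j → M j = L j
  bd : ∀ j < n, ‖g t M j‖ ≤ K

theorem Inv.step {K N κ : ℝ} {L M : ℕ → ℂ} {b r : ℕ} (h : Inv t n K L M b) (ht : ‖t‖ < 1)
    (hκ : ‖1 - t‖ ≤ κ * (1 - ‖t‖)) (hK : κ * N ≤ K) (h0 : L 0 = 0)
    (hg : ∀ j < n, ‖g t L j‖ ≤ N) (hb : b ≤ r) (hr1 : 1 ≤ r) (hrn : r ≤ n) :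
    Inv t n K L (T t r M) r := by
  refine ⟨T_zero h.zero r, fun j hj => by rw [T_of_le hj]; exact h.tail j (by omega), ?_⟩
  intro j hj
  rw [g_T r j]
  split_ifs with h1 h2
  · exact h.bd (j + 1) (by omega)
  · have e1 : M 1 = g t M 0 := by unfold g; rw [h.zero]; ring
    have b1 : ‖M 1‖ ≤ K := by rw [e1]; exact h.bd 0 (by omega)
    have b2 := norm_le h0 N ht hg r hrn
    rw [h.tail r hb]
    have hp : 0 ≤ ‖t‖ ^ r := by positivity
    have hp1 : ‖t‖ ^ r ≤ 1 := pow_le_one₀ (norm_nonneg _) ht.le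
    have hκ0 : 0 ≤ κ := by
      by_contra hc
      push Not at hc
      have : κ * (1 - ‖t‖) < 0 := mul_neg_of_neg_of_pos hc (by linarith)
      linarith [norm_nonneg (1 - t)]
    have b3 : ‖(1 - t) * L r‖ ≤ (κ * N) * (1 - ‖t‖ ^ r) := by
      rw [norm_mul]
      calc ‖1 - t‖ * ‖L r‖ ≤ κ * (1 - ‖t‖) * ‖L r‖ :=
            mul_le_mul_of_nonneg_right hκ (norm_nonneg _)
        _ = κ * ((1 - ‖t‖) * ‖L r‖) := by ring
        _ ≤ κ * (N * (1 - ‖t‖ ^ r)) := mul_le_mul_of_nonneg_left b2 hκ0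
        _ = _ := by ring
    calc ‖t ^ r * M 1 + (1 - t) * L r‖ ≤ ‖t ^ r * M 1‖ + ‖(1 - t) * L r‖ := norm_add_le _ _
      _ ≤ ‖t‖ ^ r * K + (κ * N) * (1 - ‖t‖ ^ r) := by
          refine add_le_add ?_ b3
          rw [norm_mul, norm_pow]
          exact mul_le_mul_of_nonneg_left b1 hp
      _ ≤ ‖t‖ ^ r * K + K * (1 - ‖t‖ ^ r) := by
          have := mul_le_mul_of_nonneg_right hK (by linarith : 0 ≤ 1 - ‖t‖ ^ r)
          linarith
      _ = K := by ring
  · exact h.bd j hj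

theorem Inv.run {K N κ : ℝ} {L : ℕ → ℂ} (ht : ‖t‖ < 1)
    (hκ : ‖1 - t‖ ≤ κ * (1 - ‖t‖)) (hK : κ * N ≤ K) (h0 : L 0 = 0)
    (hg : ∀ j < n, ‖g t L j‖ ≤ N) : ∀ (l : List ℕ) (M : ℕ → ℂ) (b : ℕ), Inv t n K L M b →
    l.Pairwise (· ≤ ·) → (∀ r ∈ l, b ≤ r ∧ 1 ≤ r ∧ r ≤ n) → b ≤ n →
    ∃ b', b' ≤ n ∧ Inv t n K L (act t l M) b' := by
  intro l
  induction l with
  | nil => intro M b h _ _ hb; exact ⟨b, hb, h⟩
  | cons r l ih =>
    intro M b h hp hl hb
    obtain ⟨h1, h2, h3⟩ := hl r (by simp)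
    rw [List.pairwise_cons] at hp
    refine ih (T t r M) r (h.step ht hκ hK h0 hg h1 h2 h3) hp.2 ?_ h3
    intro x hx
    exact ⟨hp.1 x hx, (hl x (by simp [hx])).2⟩

/-- a nondecreasing run multiplies the largest difference by at most `κ` -/
theorem run_le {N κ : ℝ} {L : ℕ → ℂ} (ht : ‖t‖ < 1)
    (hκ : ‖1 - t‖ ≤ κ * (1 - ‖t‖)) (hκ1 : 1 ≤ κ) (hN : 0 ≤ N) (h0 : L 0 = 0)
    (hg : ∀ j < n, ‖g t L j‖ ≤ N) (l : List ℕ) (hp : l.Pairwise (· ≤ ·))
    (hl : ∀ r ∈ l, 1 ≤ r ∧ r ≤ n) :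
    act t l L 0 = 0 ∧ act t l L n = L n ∧ ∀ j < n, ‖g t (act t l L) j‖ ≤ κ * N := by
  have hI : Inv t n (κ * N) L L 0 := ⟨h0, fun _ _ => rfl, fun j hj => (hg j hj).trans (by nlinarith)⟩
  obtain ⟨b', hb', h⟩ := Inv.run ht hκ le_rfl h0 hg l L 0 hI hp
    (fun r hr => ⟨Nat.zero_le _, hl r hr⟩) (Nat.zero_le _)
  exact ⟨h.zero, h.tail n hb', h.bd⟩

theorem runs_le {κ : ℝ} (ht : ‖t‖ < 1)
    (hκ : ‖1 - t‖ ≤ κ * (1 - ‖t‖)) (hκ1 : 1 ≤ κ) : ∀ (R : List (List ℕ)) (N : ℝ) (L : ℕ → ℂ),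
    0 ≤ N → L 0 = 0 → (∀ j < n, ‖g t L j‖ ≤ N) →
    (∀ l ∈ R, l.Pairwise (· ≤ ·) ∧ ∀ r ∈ l, 1 ≤ r ∧ r ≤ n) →
    act t R.flatten L 0 = 0 ∧ act t R.flatten L n = L n ∧
      ∀ j < n, ‖g t (act t R.flatten L) j‖ ≤ κ ^ R.length * N := by
  intro R
  induction R with
  | nil => intro N L _ h0 hg _; exact ⟨h0, rfl, fun j hj => by simpa using hg j hj⟩
  | cons l R ih =>
    intro N L hN h0 hg hR
    obtain ⟨hp, hl⟩ := hR l (by simp)
    obtain ⟨a1, a2, a3⟩ := run_le ht hκ hκ1 hN h0 hg l hp hl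
    obtain ⟨b1, b2, b3⟩ := ih (κ * N) (act t l L) (by nlinarith) a1 a3
      (fun l' hl' => hR l' (by simp [hl']))
    rw [List.flatten_cons, act_append]
    refine ⟨b1, b2.trans a2, fun j hj => (b3 j hj).trans (le_of_eq ?_)⟩
    rw [List.length_cons, pow_succ]
    ring

theorem eq_zero_of_g {L : ℕ → ℂ} (h0 : L 0 = 0) (hg : ∀ j < n, g t L j = 0) :
    ∀ j ≤ n, L j = 0 := by
  intro j
  induction j with
  | zero => intro _; exact h0
  | succ j ih =>
    intro hj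
    have h1 := ih (by omega)
    have h2 := hg j (by omega)
    unfold g at h2
    rw [h1] at h2
    linear_combination h2

/-- the values of `act` on `[0, n]` depend only on the values on `[0, n]` -/
theorem act_congr : ∀ (l : List ℕ) (L M : ℕ → ℂ), (∀ r ∈ l, r ≤ n) → 1 ≤ n →
    (∀ j ≤ n, L j = M j) → ∀ j ≤ n, act t l L j = act t l M j := by
  intro l
  induction l with
  | nil => intro L M _ _ h; exact h
  | cons r l ih =>
    intro L M hl hn h
    have hr := hl r (by simp)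
    refine ih (T t r L) (T t r M) (fun x hx => hl x (by simp [hx])) hn ?_
    intro j hj
    unfold T
    split_ifs with h1
    · rw [h (j + 1) (by omega), h 1 hn]
    · exact h j hj

theorem T_smul (c : ℂ) (r : ℕ) (L : ℕ → ℂ) : T t r (fun j => c * L j) = fun j => c * T t r L j := by
  funext j
  unfold T
  split_ifs
  · ring
  · rfl

theorem act_smul (c : ℂ) : ∀ (l : List ℕ) (L : ℕ → ℂ),
    act t l (fun j => c * L j) = fun j => c * act t l L j := by
  intro l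
  induction l with
  | nil => intro L; rfl
  | cons r l ih =>
    intro L
    rw [act_cons, act_cons, T_smul, ih]

/-- powers of `T_n`, before the first entry has gone round -/
theorem act_replicate {L : ℕ → ℂ} (h0 : L 0 = 0) (hn : L n = 0) : ∀ k ≤ n, ∀ j ≤ n,
    act t (List.replicate k n) L j =
      if j + k ≤ n then L (j + k) - t ^ j * L k else t ^ n * L (j + k - n) - t ^ j * L k := by
  intro k
  induction k with
  | zero =>
    intro _ j hj
    rw [if_pos (by omega)]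
    simp [h0]
  | succ k ih =>
    intro hk j hj
    have hk' := ih (by omega)
    rw [List.replicate_succ', act_append]
    simp only [act_cons, act_nil]
    unfold T
    split_ifs with h1 h2 h2
    · rw [hk' (j + 1) (by omega), hk' 1 (by omega), if_pos (by omega), if_pos (by omega)]
      have e1 : j + 1 + k = j + (k + 1) := by ring
      have e2 : 1 + k = k + 1 := by ring
      rw [e1, e2]
      ring
    · rw [hk' (j + 1) (by omega), hk' 1 (by omega), if_pos (by omega : 1 + k ≤ n)]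
      by_cases h3 : j + 1 + k ≤ n
      · exact absurd h3 (by omega)
      · rw [if_neg h3]
        have e1 : j + 1 + k = j + (k + 1) := by ring
        have e2 : 1 + k = k + 1 := by ring
        rw [e1, e2]
        ring
    · have : j = n := by omega
      omega
    · have hjn : j = n := by omega
      rw [hk' j hj, hjn]
      have e2 : n + (k + 1) - n = k + 1 := by omega
      by_cases h3 : k = 0
      · subst h3
        simp
        rw [hn, h0]
        simp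
      · rw [if_neg (by omega)]
        have e1 : n + k - n = k := by omega
        rw [e1, e2]
        ring

/-- the full twist is the scalar `t ^ n` -/
theorem act_full {L : ℕ → ℂ} (h0 : L 0 = 0) (hn : L n = 0) (j : ℕ) (hj : j ≤ n) :
    act t (List.replicate n n) L j = t ^ n * L j := by
  rw [act_replicate h0 hn n le_rfl j hj, hn]
  simp only [mul_zero, sub_zero]
  by_cases h : j + n ≤ n
  · have : j = 0 := by omega
    rw [if_pos h, this]
    simp [h0, hn]
  · rw [if_neg h]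
    have e : j + n - n = j := by omega
    rw [e]

theorem act_full_pow {L : ℕ → ℂ} (h0 : L 0 = 0) (hn : L n = 0) (hn1 : 1 ≤ n) (m : ℕ) :
    ∀ j ≤ n, act t (List.replicate (n * m) n) L j = (t ^ n) ^ m * L j := by
  induction m with
  | zero => intro j _; simp
  | succ m ih =>
    intro j hj
    have e : List.replicate (n * (m + 1)) n = List.replicate (n * m) n ++ List.replicate n n := by
      rw [← List.replicate_add]
      rfl
    rw [e, act_append]
    rw [act_congr (n := n) (List.replicate n n) _ (fun j => (t ^ n) ^ m * L j)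
      (fun r hr => (List.eq_of_mem_replicate hr).le) hn1 ih j hj]
    rw [act_full (by simp [h0]) (by simp [hn]) j hj]
    ring

/-- the case of small `|t|`: no fixed vector -/
theorem caseB {κ : ℝ} (ht : ‖t‖ < 1) (hκ : ‖1 - t‖ ≤ κ * (1 - ‖t‖)) (hκ1 : 1 ≤ κ)
    (hκn : κ * ‖t‖ ^ n < 1) {L : ℕ → ℂ} (h0 : L 0 = 0) (hn1 : 1 ≤ n)
    {m : ℕ} (hm : 1 ≤ m) (R : List (List ℕ)) (hlen : R.length ≤ m)
    (hR : ∀ l ∈ R, l.Pairwise (· ≤ ·) ∧ ∀ r ∈ l, 1 ≤ r ∧ r ≤ n)
    (hfix : ∀ j ≤ n, (t ^ n) ^ m * act t R.flatten L j = L j) : ∀ j ≤ n, L j = 0 := by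
  classical
  obtain ⟨i, hi, hmax⟩ := Finset.exists_max_image (Finset.range n) (fun j => ‖g t L j‖)
    ⟨0, Finset.mem_range.2 hn1⟩
  set N : ℝ := ‖g t L i‖ with hNdef
  have hN : 0 ≤ N := norm_nonneg _
  obtain ⟨-, -, b3⟩ := runs_le ht hκ hκ1 R N L hN h0
    (fun j hj => hmax j (Finset.mem_range.2 hj)) hR
  have hi' := Finset.mem_range.1 hi
  have e1 : g t L i = (t ^ n) ^ m * g t (act t R.flatten L) i := by
    unfold g
    rw [mul_sub, hfix (i + 1) (by omega)]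
    have := hfix i (by omega)
    linear_combination t * this
  have hρ : 0 ≤ ‖t‖ ^ n := by positivity
  have h1 : N ≤ (κ * ‖t‖ ^ n) ^ m * N := by
    calc N = ‖(t ^ n) ^ m‖ * ‖g t (act t R.flatten L) i‖ := by rw [hNdef, e1, norm_mul]
      _ ≤ (‖t‖ ^ n) ^ m * (κ ^ R.length * N) := by
          rw [norm_pow, norm_pow]
          exact mul_le_mul_of_nonneg_left (b3 i hi') (by positivity)
      _ ≤ (‖t‖ ^ n) ^ m * (κ ^ m * N) := by
          refine mul_le_mul_of_nonneg_left ?_ (by positivity)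
          exact mul_le_mul_of_nonneg_right (pow_le_pow_right₀ hκ1 hlen) hN
      _ = _ := by rw [mul_pow]; ring
  have h2 : (κ * ‖t‖ ^ n) ^ m < 1 := pow_lt_one₀ (by positivity) hκn (by omega)
  have hN0 : N = 0 := by nlinarith
  refine eq_zero_of_g (t := t) (n := n) h0 (fun j hj => ?_)
  have := hmax j (Finset.mem_range.2 hj)
  rw [hN0] at this
  exact norm_le_zero_iff.1 this

/-- the same for the word with `m` full twists written as powers of `T_n` -/
theorem caseB' {κ : ℝ} (ht : ‖t‖ < 1) (hκ : ‖1 - t‖ ≤ κ * (1 - ‖t‖)) (hκ1 : 1 ≤ κ)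
    (hκn : κ * ‖t‖ ^ n < 1) {L : ℕ → ℂ} (h0 : L 0 = 0) (hn : L n = 0) (hn1 : 1 ≤ n)
    {m : ℕ} (hm : 1 ≤ m) (R : List (List ℕ)) (hlen : R.length ≤ m)
    (hR : ∀ l ∈ R, l.Pairwise (· ≤ ·) ∧ ∀ r ∈ l, 1 ≤ r ∧ r ≤ n)
    (hfix : ∀ j ≤ n, act t (R.flatten ++ List.replicate (n * m) n) L j = L j) :
    ∀ j ≤ n, L j = 0 := by
  have h1 : ∀ l ∈ R, l.Pairwise (· ≤ ·) ∧ ∀ r ∈ l, 1 ≤ r ∧ r ≤ n := hR
  classical
  obtain ⟨i, hi, hmax⟩ := Finset.exists_max_image (Finset.range n) (fun j => ‖g t L j‖)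
    ⟨0, Finset.mem_range.2 hn1⟩
  obtain ⟨b1, b2, -⟩ := runs_le ht hκ hκ1 R _ L (norm_nonneg _) h0
    (fun j hj => hmax j (Finset.mem_range.2 hj)) hR
  refine caseB ht hκ hκ1 hκn h0 hn1 hm R hlen hR (fun j hj => ?_)
  rw [← hfix j hj, act_append, act_full_pow b1 (b2.trans hn) hn1 m j hj]

end Pool.Agent.Helper87.LZ
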